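import Mathlib

set_option autoImplicit false

namespace Pool.Agent.V5helper5.HC

open Finset Classical

/-- The `d`-dimensional hypercube. -/
def Q (d : ℕ) : SimpleGraph (Fin d → Bool) where
  Adj x y := hammingDist x y = 1
  symm := ⟨fun x y h => by rw [hammingDist_comm]; exact h⟩
  loopless := ⟨fun x h => by simp at h⟩

lemma Q_adj {d : ℕ} (x y : Fin d → Bool) : (Q d).Adj x y ↔ hammingDist x y = 1 := Iff.rfl

lemma ham_le_length {d : ℕ} {x y : Fin d → Bool} (p : (Q d).Walk x y) :
    hammingDist x y ≤ p.length := by
  induction p with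
  | nil => simp
  | @cons u v w h p ih =>
    rw [SimpleGraph.Walk.length_cons]
    have h1 := (Q_adj _ _).1 h
    have h2 := hammingDist_triangle u v w
    omega

lemma exists_walk {d : ℕ} : ∀ (n : ℕ) (x y : Fin d → Bool), hammingDist x y = n →
    ∃ p : (Q d).Walk x y, p.length = n := by
  intro n
  induction n with
  | zero =>
    intro x y h
    have := hammingDist_eq_zero.1 h
    subst this
    exact ⟨SimpleGraph.Walk.nil, rfl⟩
  | succ n ih =>
    intro x y h
    have hne : (univ.filter fun i => x i ≠ y i).Nonempty := by
      rw [← Finset.card_pos]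
      unfold hammingDist at h
      omega
    obtain ⟨i, hi⟩ := hne
    rw [Finset.mem_filter] at hi
    set x' := Function.update x i (y i) with hx'
    have h1 : hammingDist x x' = 1 := by
      unfold hammingDist
      rw [Finset.card_eq_one]
      refine ⟨i, ?_⟩
      ext j
      rw [Finset.mem_filter, Finset.mem_singleton, hx']
      by_cases hj : j = i
      · subst hj; simp [hi.2]
      · simp [hj]
    have h2 : hammingDist x' y = n := by
      have h3 : (univ.filter fun j => x j ≠ y j) = insert i (univ.filter fun j => x' j ≠ y j) := by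
        ext j
        rw [Finset.mem_filter, Finset.mem_insert, Finset.mem_filter, hx']
        by_cases hj : j = i
        · subst hj; simp [hi.2]
        · simp [hj]
      have h4 : i ∉ (univ.filter fun j => x' j ≠ y j) := by
        rw [Finset.mem_filter, hx']; simp
      unfold hammingDist at h ⊢
      rw [h3, Finset.card_insert_of_notMem h4] at h
      omega
    obtain ⟨p, hp⟩ := ih x' y h2
    exact ⟨SimpleGraph.Walk.cons ((Q_adj _ _).2 h1) p, by rw [SimpleGraph.Walk.length_cons, hp]⟩

lemma dist_eq {d : ℕ} (x y : Fin d → Bool) : (Q d).dist x y = hammingDist x y := by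
  obtain ⟨p, hp⟩ := exists_walk _ x y rfl
  apply le_antisymm
  · exact hp ▸ SimpleGraph.dist_le p
  · obtain ⟨q, hq⟩ := SimpleGraph.Reachable.exists_walk_length_eq_dist ⟨p⟩
    exact hq ▸ ham_le_length q

/-- signs -/
def sg (b : Bool) : ℤ := if b then 1 else -1

lemma sg_cases (b : Bool) : sg b = 1 ∨ sg b = -1 := by cases b <;> simp [sg]

lemma sg_mul_self (b : Bool) : sg b * sg b = 1 := by cases b <;> simp [sg]

lemma sg_inj {a b : Bool} (h : sg a = sg b) : a = b := by
  cases a <;> cases b <;> simp [sg] at h ⊢

lemma ham_sg {d : ℕ} (x y : Fin d → Bool) :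
    2 * (hammingDist x y : ℤ) = d - ∑ i, sg (x i) * sg (y i) := by
  unfold hammingDist
  rw [Finset.card_filter]
  push_cast
  rw [Finset.mul_sum]
  have : (d : ℤ) = ∑ _i : Fin d, (1 : ℤ) := by simp
  rw [this, ← Finset.sum_sub_distrib]
  apply Finset.sum_congr rfl
  intro i _
  cases x i <;> cases y i <;> simp [sg]

/-- vectors with entries `-1, 0, 1` -/
def Tri {κ : Type*} (z : κ → ℤ) : Prop := ∀ j, z j = 0 ∨ z j = 1 ∨ z j = -1

/-- resolving sets -/
def Res {d : ℕ} (S : Finset (Fin d → Bool)) : Prop :=
  ∀ u v : Fin d → Bool, u ≠ v → ∃ s ∈ S, (Q d).dist u s ≠ (Q d).dist v s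

/-- edge resolving sets -/
def ERes {d : ℕ} (S : Finset (Fin d → Bool)) : Prop :=
  ∀ u v x y : Fin d → Bool, (Q d).Adj u v → (Q d).Adj x y → s(u, v) ≠ s(x, y) →
    ∃ s ∈ S, min ((Q d).dist u s) ((Q d).dist v s) ≠ min ((Q d).dist x s) ((Q d).dist y s)

/-- the kernel condition -/
def Ker {d : ℕ} (S : Finset (Fin d → Bool)) (z : Fin d → ℤ) : Prop :=
  ∀ s ∈ S, ∑ i, z i * sg (s i) = 0

/-- the two vertices attached to `z` -/
def up {d : ℕ} (z : Fin d → ℤ) : Fin d → Bool := fun i => decide (z i = 1)
def dn {d : ℕ} (z : Fin d → ℤ) : Fin d → Bool := fun i => decide (z i = -1)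

lemma up_sub_dn {d : ℕ} {z : Fin d → ℤ} (hz : Tri z) (i : Fin d) :
    sg (up z i) - sg (dn z i) = 2 * z i := by
  unfold up dn sg
  rcases hz i with h | h | h <;> simp [h]

theorem res_ker {d : ℕ} {S : Finset (Fin d → Bool)} (h : Res S) {z : Fin d → ℤ} (hz : Tri z)
    (hk : Ker S z) : z = 0 := by
  by_contra hne
  have h1 : up z ≠ dn z := by
    intro he
    apply hne
    funext i
    have := up_sub_dn hz i
    rw [he] at this
    simp only [Pi.zero_apply]
    omega
  obtain ⟨s, hs, hd⟩ := h _ _ h1
  apply hd
  rw [dist_eq, dist_eq]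
  have h2 := ham_sg (up z) s
  have h3 := ham_sg (dn z) s
  have h4 := hk s hs
  have h5 : ∑ i, sg (up z i) * sg (s i) - ∑ i, sg (dn z i) * sg (s i) = 2 * ∑ i, z i * sg (s i) := by
    rw [← Finset.sum_sub_distrib, Finset.mul_sum]
    apply Finset.sum_congr rfl
    intro i _
    rw [← sub_mul, up_sub_dn hz i]
    ring
  rw [h4] at h5
  omega

theorem ker_res {d : ℕ} {S : Finset (Fin d → Bool)} (h : ∀ z : Fin d → ℤ, Tri z → Ker S z → z = 0) :
    Res S := by
  intro u v huv
  by_contra hcon
  push Not at hcon
  apply huv
  set z : Fin d → ℤ := fun i => (sg (u i) - sg (v i)) / 2 with hz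
  have h2 : ∀ i, 2 * z i = sg (u i) - sg (v i) := by
    intro i
    simp only [hz]
    cases u i <;> cases v i <;> simp [sg]
  have h3 : z = 0 := by
    apply h z
    · intro i
      simp only [hz]
      cases u i <;> cases v i <;> simp [sg]
    · intro s hs
      have h4 := hcon s hs
      rw [dist_eq, dist_eq] at h4
      have h5 := ham_sg u s
      have h6 := ham_sg v s
      have h7 : 2 * ∑ i, z i * sg (s i) = ∑ i, sg (u i) * sg (s i) - ∑ i, sg (v i) * sg (s i) := by
        rw [← Finset.sum_sub_distrib, Finset.mul_sum]
        apply Finset.sum_congr rfl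
        intro i _
        rw [← sub_mul, ← h2 i]
        ring
      omega
  funext i
  apply sg_inj
  have := h2 i
  rw [h3] at this
  simp only [Pi.zero_apply] at this
  omega

/-- flip a coordinate -/
def fl {d : ℕ} (x : Fin d → Bool) (i : Fin d) : Fin d → Bool := Function.update x i (!x i)

lemma fl_ham {d : ℕ} (x : Fin d → Bool) (i : Fin d) : hammingDist x (fl x i) = 1 := by
  unfold hammingDist
  rw [Finset.card_eq_one]
  refine ⟨i, ?_⟩
  ext j
  rw [Finset.mem_filter, Finset.mem_singleton, fl]
  by_cases hj : j = i
  · subst hj; simp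
  · simp [hj]

lemma ham_one {d : ℕ} {x y : Fin d → Bool} (h : hammingDist x y = 1) :
    ∃ i, x i ≠ y i ∧ ∀ j, j ≠ i → x j = y j := by
  unfold hammingDist at h
  rw [Finset.card_eq_one] at h
  obtain ⟨i, hi⟩ := h
  refine ⟨i, ?_, ?_⟩
  · have : i ∈ univ.filter fun j => x j ≠ y j := by rw [hi]; simp
    exact (Finset.mem_filter.1 this).2
  · intro j hj
    by_contra hne
    have : j ∈ univ.filter fun j => x j ≠ y j := by rw [Finset.mem_filter]; exact ⟨Finset.mem_univ _, hne⟩
    rw [hi, Finset.mem_singleton] at this
    exact hj this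

/-- twice the vector of an edge -/
def ev {d : ℕ} (u v : Fin d → Bool) (i : Fin d) : ℤ := sg (u i) + sg (v i)

lemma min_dist {d : ℕ} {u v : Fin d → Bool} (h : hammingDist u v = 1) (s : Fin d → Bool) :
    4 * (min (hammingDist u s) (hammingDist v s) : ℤ) = 2 * d - ∑ i, ev u v i * sg (s i) - 2 := by
  have h1 := ham_sg u s
  have h2 := ham_sg v s
  have h3 : ∑ i, ev u v i * sg (s i) = ∑ i, sg (u i) * sg (s i) + ∑ i, sg (v i) * sg (s i) := by
    rw [← Finset.sum_add_distrib]
    apply Finset.sum_congr rfl
    intro i _
    rw [ev]; ring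
  obtain ⟨i, hi, hj⟩ := ham_one h
  have h4 : ∑ l, sg (u l) * sg (s l) - ∑ l, sg (v l) * sg (s l) = 2 ∨
      ∑ l, sg (u l) * sg (s l) - ∑ l, sg (v l) * sg (s l) = -2 := by
    rw [← Finset.sum_sub_distrib, Finset.sum_eq_single i]
    · revert hi
      cases u i <;> cases v i <;> cases s i <;> simp [sg]
    · intro l _ hl
      rw [hj l hl]; ring
    · intro hn; exact absurd (Finset.mem_univ _) hn
  rcases h4 with h4 | h4
  · rw [min_eq_left (by omega)]
    omega
  · rw [min_eq_right (by omega)]
    omega

/-- an edge resolving set has no kernel vector with a zero entry -/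
theorem eres_ker {d : ℕ} {S : Finset (Fin d → Bool)} (h : ERes S) {z : Fin d → ℤ} (hz : Tri z)
    (hk : Ker S z) {i : Fin d} (hi : z i = 0) : z = 0 := by
  by_contra hne
  obtain ⟨j, hj⟩ : ∃ j, z j ≠ 0 := by
    by_contra hcon
    push Not at hcon
    exact hne (funext hcon)
  have hji : j ≠ i := fun he => hj (he ▸ hi)
  set u := up z with hu
  set v := dn z with hv
  have huvj : u j ≠ v j := by
    intro he
    have := up_sub_dn hz j
    rw [← hu, ← hv, he] at this
    omega
  have hne2 : s(u, fl u i) ≠ s(v, fl v i) := by
    intro he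
    rw [Sym2.eq_iff] at he
    rcases he with ⟨h1, _⟩ | ⟨h1, _⟩
    · exact huvj (congrFun h1 j)
    · have := congrFun h1 j
      rw [fl, Function.update_of_ne hji] at this
      exact huvj this
  obtain ⟨s, hs, hd⟩ := h u (fl u i) v (fl v i) (fl_ham u i) (fl_ham v i) hne2
  apply hd
  rw [dist_eq, dist_eq, dist_eq, dist_eq]
  have h1 := min_dist (fl_ham u i) s
  have h2 := min_dist (fl_ham v i) s
  have h3 : ∑ l, ev u (fl u i) l * sg (s l) - ∑ l, ev v (fl v i) l * sg (s l) =
      4 * ∑ l, z l * sg (s l) := by
    rw [← Finset.sum_sub_distrib, Finset.mul_sum]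
    apply Finset.sum_congr rfl
    intro l _
    rw [← sub_mul]
    have h4 : ev u (fl u i) l - ev v (fl v i) l = 4 * z l := by
      unfold ev fl
      by_cases hl : l = i
      · subst hl
        simp only [Function.update_self]
        rw [hi]
        cases u l <;> cases v l <;> simp [sg]
      · rw [Function.update_of_ne hl, Function.update_of_ne hl]
        have := up_sub_dn hz l
        rw [← hu, ← hv] at this
        omega
    rw [h4]; ring
  rw [hk s hs] at h3
  have h5 : (min (hammingDist u s) (hammingDist (fl u i) s) : ℤ) =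
      (min (hammingDist v s) (hammingDist (fl v i) s) : ℤ) := by omega
  exact_mod_cast h5

/-- resolving sets are edge resolving -/
theorem res_eres {d : ℕ} {S : Finset (Fin d → Bool)} (h : Res S) : ERes S := by
  intro u v x y huv hxy hne
  by_contra hcon
  push Not at hcon
  rw [Q_adj] at huv hxy
  have hker : ∀ s ∈ S, ∑ l, (ev u v l - ev x y l) * sg (s l) = 0 := by
    intro s hs
    have h1 := hcon s hs
    rw [dist_eq, dist_eq, dist_eq, dist_eq] at h1
    have h2 := min_dist huv s
    have h3 := min_dist hxy s
    have h4 : ((min (hammingDist u s) (hammingDist v s) : ℕ) : ℤ) =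
      ((min (hammingDist x s) (hammingDist y s) : ℕ) : ℤ) := by rw [h1]
    push_cast at h4
    have h5 : ∑ l, (ev u v l - ev x y l) * sg (s l) =
        ∑ l, ev u v l * sg (s l) - ∑ l, ev x y l * sg (s l) := by
      rw [← Finset.sum_sub_distrib]
      apply Finset.sum_congr rfl
      intro l _
      ring
    rw [h5]
    omega
  obtain ⟨i, hi, hi'⟩ := ham_one huv
  obtain ⟨j, hj, hj'⟩ := ham_one hxy
  have hevi : ev u v i = 0 := by
    revert hi; unfold ev; cases u i <;> cases v i <;> simp [sg]
  have hevj : ev x y j = 0 := by
    revert hj; unfold ev; cases x j <;> cases y j <;> simp [sg]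
  have hev : ∀ l, l ≠ i → ev u v l = 2 * sg (u l) := by
    intro l hl; unfold ev; rw [← hi' l hl]; ring
  have hev' : ∀ l, l ≠ j → ev x y l = 2 * sg (x l) := by
    intro l hl; unfold ev; rw [← hj' l hl]; ring
  by_cases hij : i = j
  · subst hij
    set z : Fin d → ℤ := fun l => (ev u v l - ev x y l) / 4 with hz
    have hz4 : ∀ l, 4 * z l = ev u v l - ev x y l := by
      intro l
      by_cases hl : l = i
      · subst hl; simp only [hz]; rw [hevi, hevj]; norm_num
      · simp only [hz]; rw [hev l hl, hev' l hl]
        cases u l <;> cases x l <;> simp [sg]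
    have hz0 : z = 0 := by
      apply res_ker h
      · intro l
        by_cases hl : l = i
        · subst hl; simp only [hz]; rw [hevi, hevj]; norm_num
        · simp only [hz]; rw [hev l hl, hev' l hl]
          cases u l <;> cases x l <;> simp [sg]
      · intro s hs
        have h1 := hker s hs
        have h2 : 4 * ∑ l, z l * sg (s l) = ∑ l, (ev u v l - ev x y l) * sg (s l) := by
          rw [Finset.mul_sum]
          apply Finset.sum_congr rfl
          intro l _
          rw [← hz4 l]; ring
        omega
    have hux : ∀ l, l ≠ i → u l = x l := by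
      intro l hl
      apply sg_inj
      have h1 := hz4 l
      rw [hz0, hev l hl, hev' l hl] at h1
      simp only [Pi.zero_apply] at h1
      omega
    apply hne
    rw [Sym2.eq_iff]
    by_cases hui : u i = x i
    · left
      constructor
      · funext l
        by_cases hl : l = i
        · subst hl; exact hui
        · exact hux l hl
      · funext l
        by_cases hl : l = i
        · subst hl
          revert hi hj hui
          cases u l <;> cases v l <;> cases x l <;> cases y l <;> simp
        · rw [← hi' l hl, ← hj' l hl]; exact hux l hl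
    · right
      constructor
      · funext l
        by_cases hl : l = i
        · subst hl
          revert hi hj hui
          cases u l <;> cases v l <;> cases x l <;> cases y l <;> simp
        · rw [← hj' l hl]; exact hux l hl
      · funext l
        by_cases hl : l = i
        · subst hl
          revert hi hj hui
          cases u l <;> cases v l <;> cases x l <;> cases y l <;> simp
        · rw [← hi' l hl]; exact hux l hl
  · -- i ≠ j
    have hji : j ≠ i := fun he => hij he.symm
    -- values at i and j
    set a : ℤ := - sg (x i) with ha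
    set b : ℤ := sg (u j) with hb
    set z : Fin d → ℤ := fun l => if l = i ∨ l = j then 0 else (sg (u l) - sg (x l)) / 2 with hz
    have hz2 : ∀ l, l ≠ i → l ≠ j → 2 * z l = sg (u l) - sg (x l) := by
      intro l h1 h2
      simp only [hz, h1, h2, or_self, if_false]
      cases u l <;> cases x l <;> simp [sg]
    have key : ∀ s ∈ S, 2 * ∑ l, z l * sg (s l) + a * sg (s i) + b * sg (s j) = 0 := by
      intro s hs
      have h1 := hker s hs
      have h2 : ∑ l, (ev u v l - ev x y l) * sg (s l) = ∑ l, (4 * (z l * sg (s l)) +
          (if l = i then 2 * a * sg (s i) else 0) + (if l = j then 2 * b * sg (s j) else 0)) := by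
        apply Finset.sum_congr rfl
        intro l _
        by_cases hl : l = i
        · subst hl
          rw [hevi, hev' l hij, if_pos rfl, if_neg hij]
          have : z l = 0 := by simp [hz]
          rw [this, ha]; ring
        · by_cases hl' : l = j
          · subst hl'
            rw [hevj, hev l hl, if_neg hl, if_pos rfl]
            have : z l = 0 := by simp [hz]
            rw [this, hb]; ring
          · rw [hev l hl, hev' l hl', if_neg hl, if_neg hl']
            have := hz2 l hl hl'
            have h4 : 2 * sg (u l) - 2 * sg (x l) = 4 * z l := by omega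
            rw [h4]; ring
      rw [h2, Finset.sum_add_distrib, Finset.sum_add_distrib, ← Finset.mul_sum,
        Finset.sum_ite_eq' , Finset.sum_ite_eq'] at h1
      simp only [Finset.mem_univ, if_true] at h1
      linarith
    have hpar : ∀ s : Fin d → Bool, (∑ l, z l * sg (s l)) % 2 = (∑ l, z l) % 2 := by
      intro s
      have h1 : (∑ l, z l * sg (s l)) - ∑ l, z l = 2 * ∑ l, (z l * sg (s l) - z l) / 2 := by
        rw [← Finset.sum_sub_distrib, Finset.mul_sum]
        apply Finset.sum_congr rfl
        intro l _
        cases s l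
        · simp only [sg]; norm_num; omega
        · simp [sg]
      omega
    have ha1 : a = 1 ∨ a = -1 := by rcases sg_cases (x i) with h | h <;> omega
    have hb1 : b = 1 ∨ b = -1 := by rcases sg_cases (u j) with h | h <;> omega
    -- the kernel vector supported on `i, j`
    have hfin : ∀ c : ℤ, (c = 1 ∨ c = -1) → (∀ s ∈ S, a * sg (s i) + c * sg (s j) = 0) → False := by
      intro c hc hcs
      set w : Fin d → ℤ := fun l => if l = i then a else if l = j then c else 0 with hw
      have hw0 : w = 0 := by
        apply res_ker h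
        · intro l
          simp only [hw]
          split_ifs with h1 h2
          · rcases ha1 with h | h <;> simp [h]
          · rcases hc with h | h <;> simp [h]
          · left; rfl
        · intro s hs
          have h1 : ∑ l, w l * sg (s l) = ∑ l, ((if l = i then a * sg (s i) else 0) +
              (if l = j then c * sg (s j) else 0)) := by
            apply Finset.sum_congr rfl
            intro l _
            simp only [hw]
            by_cases hl : l = i
            · subst hl; rw [if_pos rfl, if_pos rfl, if_neg hij]; ring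
            · by_cases hl' : l = j
              · subst hl'; rw [if_neg hl, if_neg hl, if_pos rfl, if_pos rfl]; ring
              · rw [if_neg hl, if_neg hl, if_neg hl', if_neg hl']; ring
          rw [h1, Finset.sum_add_distrib, Finset.sum_ite_eq', Finset.sum_ite_eq']
          simp only [Finset.mem_univ, if_true]
          exact hcs s hs
      have h2 := congrFun hw0 i
      simp only [hw, if_true, Pi.zero_apply] at h2
      omega
    rcases Int.emod_two_eq_zero_or_one (∑ l, z l) with hp | hp
    · apply hfin b hb1
      intro s hs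
      have h1 := key s hs
      have h2 := hpar s
      rw [hp] at h2
      rcases ha1 with ha' | ha' <;> rcases hb1 with hb' | hb' <;>
        rcases sg_cases (s i) with hsi | hsi <;> rcases sg_cases (s j) with hsj | hsj <;>
        rw [ha', hb', hsi, hsj] at h1 ⊢ <;> omega
    · apply hfin (-b) (by rcases hb1 with h | h <;> omega)
      intro s hs
      have h1 := key s hs
      have h2 := hpar s
      rw [hp] at h2
      rcases ha1 with ha' | ha' <;> rcases hb1 with hb' | hb' <;>
        rcases sg_cases (s i) with hsi | hsi <;> rcases sg_cases (s j) with hsj | hsj <;>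
        rw [ha', hb', hsi, hsj] at h1 ⊢ <;> omega

end Pool.Agent.V5helper5.HC
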