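import Mathlib
import Pool.Agent.V5helper5.HC.Basic

set_option autoImplicit false

namespace Pool.Agent.V5helper5.HC

open Finset Classical

/-- the metric dimension of the hypercube -/
noncomputable def dimQ (d : ℕ) : ℕ :=
  sInf {n : ℕ | ∃ S : Finset (Fin d → Bool), S.card = n ∧ Res S}

/-- the edge metric dimension of the hypercube -/
noncomputable def edimQ (d : ℕ) : ℕ :=
  sInf {n : ℕ | ∃ S : Finset (Fin d → Bool), S.Nonempty ∧ S.card = n ∧ ERes S}

lemma res_univ {d : ℕ} : Res (univ : Finset (Fin d → Bool)) := by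
  intro u v huv
  refine ⟨u, Finset.mem_univ _, ?_⟩
  rw [dist_eq, dist_eq, hammingDist_self]
  intro h
  exact huv (hammingDist_eq_zero.1 h.symm).symm

lemma dim_spec (d : ℕ) : ∃ S : Finset (Fin d → Bool), S.card = dimQ d ∧ Res S :=
  Nat.sInf_mem (s := {n : ℕ | ∃ S : Finset (Fin d → Bool), S.card = n ∧ Res S})
    ⟨_, univ, rfl, res_univ⟩

lemma edim_spec (d : ℕ) :
    ∃ S : Finset (Fin d → Bool), S.Nonempty ∧ S.card = edimQ d ∧ ERes S :=
  Nat.sInf_mem (s := {n : ℕ | ∃ S : Finset (Fin d → Bool), S.Nonempty ∧ S.card = n ∧ ERes S})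
    ⟨_, univ, ⟨fun _ => true, Finset.mem_univ _⟩, rfl, res_eres res_univ⟩

lemma dim_le {d : ℕ} {S : Finset (Fin d → Bool)} (h : Res S) : dimQ d ≤ S.card :=
  Nat.sInf_le ⟨S, rfl, h⟩

lemma edim_le {d : ℕ} {S : Finset (Fin d → Bool)} (hne : S.Nonempty) (h : ERes S) :
    edimQ d ≤ S.card :=
  Nat.sInf_le ⟨S, hne, rfl, h⟩

lemma res_nonempty {d : ℕ} (hd : 1 ≤ d) {S : Finset (Fin d → Bool)} (h : Res S) : S.Nonempty := by
  obtain ⟨s, hs, _⟩ := h (fun _ => true) (fun _ => false) (by
    intro he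
    have := congrFun he ⟨0, hd⟩
    simp at this)
  exact ⟨s, hs⟩

theorem edim_le_dim {d : ℕ} (hd : 1 ≤ d) : edimQ d ≤ dimQ d := by
  obtain ⟨S, hS, hr⟩ := dim_spec d
  rw [← hS]
  exact edim_le (res_nonempty hd hr) (res_eres hr)

theorem dim_le_edim_succ (n : ℕ) : dimQ n ≤ edimQ (n + 1) := by
  obtain ⟨S, _, hS, hr⟩ := edim_spec (n + 1)
  set S' : Finset (Fin n → Bool) := S.image fun s i => s i.castSucc with hS'
  have h1 : Res S' := by
    apply ker_res
    intro z hz hk
    set z' : Fin (n + 1) → ℤ := Fin.snoc z 0 with hz'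
    have h2 : z' = 0 := by
      apply eres_ker hr (i := Fin.last n)
      · intro i
        refine Fin.lastCases ?_ (fun j => ?_) i
        · left; simp [hz']
        · simp only [hz', Fin.snoc_castSucc]; exact hz j
      · intro s hs
        rw [Fin.sum_univ_castSucc]
        simp only [hz', Fin.snoc_castSucc, Fin.snoc_last, zero_mul, add_zero]
        exact hk (fun i => s i.castSucc) (Finset.mem_image_of_mem _ hs)
      · simp [hz']
    funext i
    have := congrFun h2 i.castSucc
    simpa [hz'] using this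
  calc dimQ n ≤ S'.card := dim_le h1
    _ ≤ S.card := Finset.card_image_le
    _ = _ := hS

theorem dim_mono (n : ℕ) : dimQ n ≤ dimQ (n + 1) :=
  (dim_le_edim_succ n).trans (edim_le_dim (by omega))

theorem dim_succ_le {n : ℕ} (hn : 1 ≤ n) : dimQ (n + 1) ≤ dimQ n + 1 := by
  obtain ⟨S, hS, hr⟩ := dim_spec n
  obtain ⟨s0, hs0⟩ := res_nonempty hn hr
  set S' : Finset (Fin (n + 1) → Bool) :=
    insert (Fin.snoc s0 true) (S.image fun s => (Fin.snoc s false : Fin (n + 1) → Bool)) with hS'
  have h1 : Res S' := by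
    apply ker_res
    intro z hz hk
    have e1 : ∀ (s : Fin n → Bool) (b : Bool), (∑ i, z i * sg ((Fin.snoc s b : Fin (n + 1) → Bool) i)) =
        ∑ i : Fin n, z i.castSucc * sg (s i) + z (Fin.last n) * sg b := by
      intro s b
      rw [Fin.sum_univ_castSucc]
      simp only [Fin.snoc_castSucc, Fin.snoc_last]
    have h2 := hk _ (Finset.mem_insert_self _ _)
    have h3 : ∀ s ∈ S, ∑ i : Fin n, z i.castSucc * sg (s i) + z (Fin.last n) * sg false = 0 := by
      intro s hs
      have := hk _ (Finset.mem_insert_of_mem (Finset.mem_image_of_mem _ hs))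
      rw [e1] at this
      exact this
    rw [e1] at h2
    have h4 := h3 s0 hs0
    simp only [sg, if_true, Bool.false_eq_true, if_false] at h2 h4
    have h5 : z (Fin.last n) = 0 := by linarith
    have h6 : (fun i : Fin n => z i.castSucc) = 0 := by
      apply res_ker hr (z := fun i : Fin n => z i.castSucc)
      · intro i; exact hz _
      · intro s hs
        have := h3 s hs
        rw [h5] at this
        simpa using this
    funext i
    refine Fin.lastCases ?_ (fun j => ?_) i
    · exact h5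
    · exact congrFun h6 j
  calc dimQ (n + 1) ≤ S'.card := dim_le h1
    _ ≤ (S.image fun s => (Fin.snoc s false : Fin (n + 1) → Bool)).card + 1 :=
        Finset.card_insert_le _ _
    _ ≤ S.card + 1 := by
        have := Finset.card_image_le (s := S) (f := fun s => (Fin.snoc s false : Fin (n + 1) → Bool))
        omega
    _ = _ := by rw [hS]

theorem dim_le_edim_odd {d : ℕ} (hd : d % 2 = 1) : dimQ d ≤ edimQ d := by
  obtain ⟨S, hne, hS, hr⟩ := edim_spec d
  rw [← hS]
  apply dim_le
  apply ker_res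
  intro z hz hk
  by_cases h0 : ∃ i, z i = 0
  · obtain ⟨i, hi⟩ := h0
    exact eres_ker hr hz hk hi
  · exfalso
    push Not at h0
    obtain ⟨s, hs⟩ := hne
    have h1 := hk s hs
    have h2 : (∑ i, z i * sg (s i)) - ∑ _i : Fin d, (1 : ℤ) =
        2 * ∑ i, (z i * sg (s i) - 1) / 2 := by
      rw [← Finset.sum_sub_distrib, Finset.mul_sum]
      apply Finset.sum_congr rfl
      intro i _
      rcases hz i with h | h | h
      · exact absurd h (h0 i)
      · rcases sg_cases (s i) with h' | h' <;> rw [h, h'] <;> norm_num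
      · rcases sg_cases (s i) with h' | h' <;> rw [h, h'] <;> norm_num
    rw [h1] at h2
    simp at h2
    omega

/-- exceptional dimensions -/
def Exc (d : ℕ) : Prop := dimQ d ≠ edimQ d

theorem exc_step {n : ℕ} (h : Exc (n + 1)) : dimQ n + 1 ≤ dimQ (n + 1) := by
  have h1 := dim_le_edim_succ n
  have h2 := edim_le_dim (d := n + 1) (by omega)
  unfold Exc at h
  omega

theorem exc_count (N : ℕ) : ((Finset.Icc 1 N).filter Exc).card ≤ dimQ N := by
  induction N with
  | zero => simp
  | succ N ih =>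
    have h1 : Finset.Icc 1 (N + 1) = insert (N + 1) (Finset.Icc 1 N) := by
      ext x; simp only [Finset.mem_Icc, Finset.mem_insert]; omega
    rw [h1, Finset.filter_insert]
    split_ifs with h
    · have h2 := exc_step h
      have h3 := Finset.card_insert_le (N + 1) ((Finset.Icc 1 N).filter Exc)
      omega
    · exact ih.trans (dim_mono N)

/-- detecting matrices -/
def Det (ι κ : Type) [Fintype ι] [Fintype κ] : Prop :=
  ∃ A : ι → κ → Bool, ∀ z : κ → ℤ, Tri z → (∀ i, ∑ j, z j * sg (A i j) = 0) → z = 0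

theorem det_dim {ι : Type} [Fintype ι] {n : ℕ} (h : Det ι (Fin n)) : dimQ n ≤ Fintype.card ι := by
  obtain ⟨A, hA⟩ := h
  have h1 : Res (univ.image A) := by
    apply ker_res
    intro z hz hk
    apply hA z hz
    intro i
    exact hk (A i) (Finset.mem_image_of_mem _ (Finset.mem_univ _))
  calc dimQ n ≤ (univ.image A).card := dim_le h1
    _ ≤ _ := by
        have := Finset.card_image_le (s := (univ : Finset ι)) (f := A)
        rwa [Finset.card_univ] at this

theorem det_congr {ι κ κ' : Type} [Fintype ι] [Fintype κ] [Fintype κ'] (e : κ ≃ κ')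
    (h : Det ι κ) : Det ι κ' := by
  obtain ⟨A, hA⟩ := h
  refine ⟨fun i j => A i (e.symm j), fun z hz hk => ?_⟩
  have h1 : (fun j => z (e j)) = 0 := by
    apply hA
    · intro j; exact hz _
    · intro i
      have := hk i
      rw [← e.sum_comp] at this
      simpa using this
  funext j
  have := congrFun h1 (e.symm j)
  simpa using this

/-- Lindström's doubling step -/
theorem det_double {ι κ : Type} [Fintype ι] [Fintype κ] (i0 : ι) (h : Det ι κ) :
    Det (ι ⊕ ι) ((κ ⊕ κ) ⊕ {i : ι // i ≠ i0}) := by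
  obtain ⟨A, hA⟩ := h
  refine ⟨fun r c => match r, c with
    | Sum.inl i, Sum.inl (Sum.inl j) => A i j
    | Sum.inl i, Sum.inl (Sum.inr j) => A i j
    | Sum.inl _, Sum.inr _ => true
    | Sum.inr i, Sum.inl (Sum.inl j) => A i j
    | Sum.inr i, Sum.inl (Sum.inr j) => !(A i j)
    | Sum.inr i, Sum.inr l => decide (l.1 = i), fun z hz hk => ?_⟩
  set x : κ → ℤ := fun j => z (Sum.inl (Sum.inl j)) with hx
  set y : κ → ℤ := fun j => z (Sum.inl (Sum.inr j)) with hy
  set w : {i : ι // i ≠ i0} → ℤ := fun l => z (Sum.inr l) with hw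
  have h1 : ∀ i, ∑ j, x j * sg (A i j) + ∑ j, y j * sg (A i j) + ∑ l, w l = 0 := by
    intro i
    have := hk (Sum.inl i)
    simp only [Fintype.sum_sum_type] at this
    simpa [sg, hx, hy, hw] using this
  have hneg : ∀ b : Bool, sg (!b) = - sg b := by intro b; cases b <;> simp [sg]
  have h2 : ∀ i, ∑ j, x j * sg (A i j) - ∑ j, y j * sg (A i j) +
      ∑ l, w l * sg (decide (l.1 = i)) = 0 := by
    intro i
    have := hk (Sum.inr i)
    simp only [Fintype.sum_sum_type, hneg] at this
    rw [← this, sub_eq_add_neg, ← Finset.sum_neg_distrib]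
    have e : ∀ j, -(y j * sg (A i j)) = z (Sum.inl (Sum.inr j)) * -sg (A i j) := by
      intro j; simp only [hy]; ring
    simp only [e, hx, hw]
  -- the sum of the two
  have h3 : ∀ i (hi : i ≠ i0), ∑ j, x j * sg (A i j) + w ⟨i, hi⟩ = 0 := by
    intro i hi
    have e1 := h1 i
    have e2 := h2 i
    have e3 : ∑ l, w l + ∑ l, w l * sg (decide (l.1 = i)) = 2 * w ⟨i, hi⟩ := by
      rw [← Finset.sum_add_distrib, Finset.sum_eq_single ⟨i, hi⟩]
      · simp [sg]; ring
      · intro l _ hl
        have : ¬ l.1 = i := fun he => hl (Subtype.ext he)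
        simp [sg, this]
      · intro hn; exact absurd (Finset.mem_univ _) hn
    linarith
  have h3' : ∑ j, x j * sg (A i0 j) = 0 := by
    have e1 := h1 i0
    have e2 := h2 i0
    have e3 : ∑ l, w l + ∑ l : {i : ι // i ≠ i0}, w l * sg (decide (l.1 = i0)) = 0 := by
      rw [← Finset.sum_add_distrib]
      apply Finset.sum_eq_zero
      intro l _
      simp [sg, l.2]
    linarith
  have hpar : ∀ i, (∑ j, x j * sg (A i j)) % 2 = (∑ j, x j) % 2 := by
    intro i
    have e1 : (∑ j, x j * sg (A i j)) - ∑ j, x j = 2 * ∑ j, (x j * sg (A i j) - x j) / 2 := by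
      rw [← Finset.sum_sub_distrib, Finset.mul_sum]
      apply Finset.sum_congr rfl
      intro j _
      rcases sg_cases (A i j) with h | h <;> rw [h] <;> omega
    omega
  have hw0 : w = 0 := by
    funext l
    have e1 := h3 l.1 l.2
    have e2 := hpar l.1
    have e3 := hpar i0
    rw [h3'] at e3
    have e4 : w l = 0 ∨ w l = 1 ∨ w l = -1 := hz _
    have e5 : w ⟨l.1, l.2⟩ = w l := rfl
    rw [e5] at e1
    simp only [Pi.zero_apply]
    omega
  have hx0 : x = 0 := by
    apply hA
    · intro j; exact hz _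
    · intro i
      by_cases hi : i = i0
      · rw [hi]; exact h3'
      · have := h3 i hi
        rw [hw0] at this
        simpa using this
  have hy0 : y = 0 := by
    apply hA
    · intro j; exact hz _
    · intro i
      have := h1 i
      rw [hx0, hw0] at this
      simpa using this
  funext c
  rcases c with (j | j) | l
  · exact congrFun hx0 j
  · exact congrFun hy0 j
  · exact congrFun hw0 l

theorem det_one : Det (Fin 1) (Fin 1) := by
  refine ⟨fun _ _ => true, fun z _ hk => ?_⟩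
  have := hk 0
  simp [sg] at this
  funext i
  rw [Subsingleton.elim i 0]
  exact this

/-- `2 ^ k` rows, `k 2 ^ (k - 1) + 1` columns -/
def cols : ℕ → ℕ
  | 0 => 1
  | k + 1 => 2 * cols k + (2 ^ k - 1)

theorem cols_eq (k : ℕ) : 2 * cols k = k * 2 ^ k + 2 := by
  induction k with
  | zero => rfl
  | succ k ih =>
    have h1 : 1 ≤ 2 ^ k := Nat.one_le_two_pow
    have h2 : cols (k + 1) = 2 * cols k + (2 ^ k - 1) := rfl
    have h3 : (k + 1) * 2 ^ (k + 1) = 2 * (k * 2 ^ k) + 2 * 2 ^ k := by rw [pow_succ]; ring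
    rw [h2, h3]
    omega

theorem det_cols (k : ℕ) : ∃ ι : Type, ∃ _ : Fintype ι, Fintype.card ι = 2 ^ k ∧
    Det ι (Fin (cols k)) := by
  induction k with
  | zero => exact ⟨Fin 1, inferInstance, by simp, det_one⟩
  | succ k ih =>
    obtain ⟨ι, hι, hc, hD⟩ := ih
    have hpos : 0 < Fintype.card ι := by rw [hc]; positivity
    obtain ⟨i0⟩ := Fintype.card_pos_iff.1 hpos
    refine ⟨ι ⊕ ι, inferInstance, ?_, ?_⟩
    · rw [Fintype.card_sum, hc, pow_succ]; ring
    · apply det_congr _ (det_double i0 hD)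
      apply Fintype.equivFinOfCardEq
      rw [Fintype.card_sum, Fintype.card_sum, Fintype.card_fin, Fintype.card_subtype_compl,
        Fintype.card_subtype_eq, hc]
      have h2 : cols (k + 1) = 2 * cols k + (2 ^ k - 1) := rfl
      rw [h2]; ring

theorem dim_cols (k : ℕ) : dimQ (cols k) ≤ 2 ^ k := by
  obtain ⟨ι, hι, hc, hD⟩ := det_cols k
  rw [← hc]
  exact det_dim hD

theorem dim_monotone : Monotone dimQ := monotone_nat_of_le_succ dim_mono

lemma cols_le (k : ℕ) : cols k ≤ 2 ^ (2 * k - 1) ∨ k = 0 := by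
  rcases Nat.eq_zero_or_pos k with h | h
  · right; exact h
  left
  obtain ⟨j, rfl⟩ : ∃ j, k = j + 1 := ⟨k - 1, by omega⟩
  have h1 := cols_eq (j + 1)
  have h2 : j + 2 ≤ 2 ^ (j + 1) := by
    have : j + 1 < 2 ^ (j + 1) := Nat.lt_two_pow_self
    omega
  have h3 : 2 ^ (2 * (j + 1) - 1) = 2 ^ (j + 1) * 2 ^ j := by
    rw [← pow_add]; congr 1; omega
  have h4 : 1 ≤ 2 ^ j := Nat.one_le_two_pow
  have h5 : (j + 1) * 2 ^ (j + 1) = 2 * ((j + 1) * 2 ^ j) := by rw [pow_succ]; ring
  have h6 : (j + 2) * 2 ^ j ≤ 2 ^ (j + 1) * 2 ^ j := Nat.mul_le_mul_right _ h2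
  rw [h3]
  nlinarith

theorem dim_log (N : ℕ) (hN : 1 ≤ N) : (dimQ N : ℝ) * Real.logb 2 N ≤ 12 * N := by
  have hex : ∃ k, N ≤ cols k := by
    refine ⟨N, ?_⟩
    have h1 := cols_eq N
    have h2 : N * 2 ≤ N * 2 ^ N := Nat.mul_le_mul_left _ (by
      calc 2 = 2 ^ 1 := rfl
        _ ≤ 2 ^ N := Nat.pow_le_pow_right (by norm_num) hN)
    omega
  obtain ⟨k, hk, hmin⟩ : ∃ k, N ≤ cols k ∧ ∀ j, j < k → ¬ N ≤ cols j :=
    ⟨Nat.find hex, Nat.find_spec hex, fun j hj => Nat.find_min hex hj⟩
  rcases Nat.eq_zero_or_pos k with h0 | h0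
  · subst h0
    have : N = 1 := by
      have : cols 0 = 1 := rfl
      omega
    subst this
    simp
  obtain ⟨j, rfl⟩ : ∃ j, k = j + 1 := ⟨k - 1, by omega⟩
  have h1 : cols j < N := by
    have := hmin j (by omega)
    omega
  have h2 : dimQ N ≤ 2 ^ (j + 1) := (dim_monotone hk).trans (dim_cols _)
  have h3 := cols_eq j
  have h4 : (N : ℝ) ≤ 2 ^ (2 * j + 1) := by
    rcases cols_le (j + 1) with h | h
    · have h5 : N ≤ 2 ^ (2 * (j + 1) - 1) := hk.trans h
      have h6 : 2 * (j + 1) - 1 = 2 * j + 1 := by omega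
      rw [h6] at h5
      exact_mod_cast h5
    · omega
  have hNR : (0 : ℝ) < N := by exact_mod_cast hN
  have h5 : Real.logb 2 N ≤ 2 * j + 1 := by
    rw [Real.logb_le_iff_le_rpow (by norm_num) hNR]
    have : ((2 : ℝ)) ^ ((2 : ℝ) * j + 1) = 2 ^ (2 * j + 1) := by
      rw [← Real.rpow_natCast]; push_cast; rfl
    rw [this]; exact h4
  have h6 : (dimQ N : ℝ) ≤ 2 ^ (j + 1) := by exact_mod_cast h2
  have hl0 : 0 ≤ Real.logb 2 (N : ℝ) := Real.logb_nonneg (by norm_num) (by exact_mod_cast hN)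
  have h7 : (dimQ N : ℝ) * Real.logb 2 N ≤ 2 ^ (j + 1) * (2 * j + 1) :=
    mul_le_mul h6 h5 hl0 (by positivity)
  have h8 : 2 ^ (j + 1) * (2 * j + 1) ≤ 12 * N := by
    rcases Nat.eq_zero_or_pos j with hj | hj
    · subst hj
      have : cols 0 = 1 := rfl
      omega
    · have h9 : 2 ^ (j + 1) * (2 * j + 1) = 4 * (j * 2 ^ j) + 2 * 2 ^ j := by rw [pow_succ]; ring
      have h10 : 2 ^ j ≤ j * 2 ^ j := Nat.le_mul_of_pos_left _ hj
      omega
  have h9 : (2 : ℝ) ^ (j + 1) * (2 * j + 1) ≤ 12 * N := by exact_mod_cast h8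
  exact h7.trans h9

end Pool.Agent.V5helper5.HC
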